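import Mathlib

/-!
# Iterated bivariate Lorenz curves need not become independent

We give a random vector with a density (bounded above and below on the triangle
`{u₁, u₂ > 0, u₁ + u₂ < 1}`) whose iterated bivariate Lorenz curves `L^n` satisfy
`sup |L^n(x₁,x₂) - L^n(x₁,1) L^n(1,x₂)| ≥ 1/36` for every `n`.
-/

open MeasureTheory Set Filter Topology
open scoped ENNReal

namespace Pool.Agent.Results.MP_357d86_pr.TriangleDependence

/-! ### Definitions used in the statement -/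

/-- Distribution function of the first marginal of `P`. -/
noncomputable def F1 (P : Measure (ℝ × ℝ)) (y : ℝ) : ℝ := P.real {u | u.1 ≤ y}

/-- Distribution function of the second marginal of `P`. -/
noncomputable def F2 (P : Measure (ℝ × ℝ)) (y : ℝ) : ℝ := P.real {u | u.2 ≤ y}

/-- Joint distribution function of `P`. -/
noncomputable def df (P : Measure (ℝ × ℝ)) (x₁ x₂ : ℝ) : ℝ := P.real {u | u.1 ≤ x₁ ∧ u.2 ≤ x₂}

/-- Generalized inverse `G⁻¹(x) = inf {y : G y ≥ x}`, with values in the extended reals. -/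
noncomputable def ginv (G : ℝ → ℝ) (x : ℝ) : EReal := sInf {z : EReal | ∃ y : ℝ, z = y ∧ x ≤ G y}

/-- The product moment `μ = E(X₁X₂)`. -/
noncomputable def mu (P : Measure (ℝ × ℝ)) : ℝ := ∫ u, u.1 * u.2 ∂P

/-- The bivariate (Arnold-type) Lorenz curve of the law `P`. -/
noncomputable def lorenz (P : Measure (ℝ × ℝ)) (x₁ x₂ : ℝ) : ℝ :=
  (1 / mu P) * ∫ u in {u : ℝ × ℝ | (u.1 : EReal) ≤ ginv (F1 P) x₁ ∧ (u.2 : EReal) ≤ ginv (F2 P) x₂},
    u.1 * u.2 ∂P

/-- `M` is the probability law carried by `[0,1]²` with distribution function `L` on `[0,1]²`. -/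
def IsLawOf (M : Measure (ℝ × ℝ)) (L : ℝ → ℝ → ℝ) : Prop :=
  IsProbabilityMeasure M ∧ M (Icc (0 : ℝ) 1 ×ˢ Icc (0 : ℝ) 1)ᶜ = 0 ∧
    ∀ x₁ ∈ Icc (0 : ℝ) 1, ∀ x₂ ∈ Icc (0 : ℝ) 1, df M x₁ x₂ = L x₁ x₂

/-- `M n` is the law with distribution function `L^n`, where `L^0 = L_P` and
`L^{n+1} = L_{L^n}`. -/
def IsLorenzIteration (P : Measure (ℝ × ℝ)) (M : ℕ → Measure (ℝ × ℝ)) : Prop :=
  IsLawOf (M 0) (lorenz P) ∧ ∀ n, IsLawOf (M (n + 1)) (lorenz (M n))

/-- Total positivity of order two. -/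
def TP2 (g : ℝ × ℝ → ℝ≥0∞) : Prop :=
  ∀ x₁ x₂ y₁ y₂, x₁ < y₁ → x₂ < y₂ → g (x₁, y₂) * g (y₁, x₂) ≤ g (x₁, x₂) * g (y₁, y₂)

/-- Reverse regularity of order two. -/
def RR2 (g : ℝ × ℝ → ℝ≥0∞) : Prop :=
  ∀ x₁ x₂ y₁ y₂, x₁ < y₁ → x₂ < y₂ → g (x₁, x₂) * g (y₁, y₂) ≤ g (x₁, y₂) * g (y₁, x₂)

/-! ### The triangle and good measures -/

/-- The open triangle. -/
def T : Set (ℝ × ℝ) := {u | 0 < u.1 ∧ 0 < u.2 ∧ u.1 + u.2 < 1}

theorem isOpen_T : IsOpen T := by
  unfold T
  refine (isOpen_lt continuous_const continuous_fst).inter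
    ((isOpen_lt continuous_const continuous_snd).inter
      (isOpen_lt (continuous_fst.add continuous_snd) continuous_const))

theorem measurableSet_T : MeasurableSet T := isOpen_T.measurableSet

/-- The class of laws in which everything takes place. -/
structure Good (ν : Measure (ℝ × ℝ)) : Prop where
  prob : IsProbabilityMeasure ν
  ac : ν ≪ volume
  carried : ν Tᶜ = 0
  pos : ∀ B, IsOpen B → B.Nonempty → B ⊆ T → 0 < ν B
  symm : ν.map Prod.swap = ν

/-- Monotone reparametrizations. -/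
structure GoodPhi (φ : ℝ → ℝ) : Prop where
  mono : Monotone φ
  cont : Continuous φ
  strict : StrictMonoOn φ (Icc 0 1)
  zero : φ 0 = 0

theorem goodPhi_id : GoodPhi (fun x => x) :=
  ⟨monotone_id, continuous_id, strictMono_id.strictMonoOn _, rfl⟩

theorem volume_fst_eq (a : ℝ) : volume {u : ℝ × ℝ | u.1 = a} = 0 := by
  have : {u : ℝ × ℝ | u.1 = a} = {a} ×ˢ (univ : Set ℝ) := by
    ext u; simp
  rw [this, Measure.volume_eq_prod, Measure.prod_prod]
  simp

theorem volume_snd_eq (a : ℝ) : volume {u : ℝ × ℝ | u.2 = a} = 0 := by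
  have : {u : ℝ × ℝ | u.2 = a} = (univ : Set ℝ) ×ˢ {a} := by
    ext u; simp
  rw [this, Measure.volume_eq_prod, Measure.prod_prod]
  simp

theorem volume_diag : volume {u : ℝ × ℝ | u.1 = u.2} = 0 := by
  rw [Measure.volume_eq_prod, Measure.measure_prod_null (measurableSet_eq_fun measurable_fst measurable_snd)]
  refine Filter.Eventually.of_forall fun x => ?_
  have : Prod.mk x ⁻¹' {u : ℝ × ℝ | u.1 = u.2} = {x} := by
    ext y; simp [eq_comm]
  show volume (Prod.mk x ⁻¹' {u : ℝ × ℝ | u.1 = u.2}) = 0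
  rw [this]
  simp

section good

variable {ν : Measure (ℝ × ℝ)} {φ ψ : ℝ → ℝ}

theorem Good.ae_T (h : Good ν) : ∀ᵐ u ∂ν, u ∈ T := by
  rw [ae_iff]; exact h.carried

theorem measurableSet_fst_le (y : ℝ) : MeasurableSet {u : ℝ × ℝ | u.1 ≤ y} :=
  measurableSet_le measurable_fst measurable_const

theorem measurableSet_snd_le (y : ℝ) : MeasurableSet {u : ℝ × ℝ | u.2 ≤ y} :=
  measurableSet_le measurable_snd measurable_const

theorem Good.measure_swap (h : Good ν) {s : Set (ℝ × ℝ)} (hs : MeasurableSet s) :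
    ν (Prod.swap ⁻¹' s) = ν s := by
  conv_rhs => rw [← h.symm]
  rw [Measure.map_apply measurable_swap hs]

theorem Good.F2_eq (h : Good ν) : F2 ν = F1 ν := by
  funext y
  unfold F1 F2
  have := h.measure_swap (measurableSet_fst_le y)
  rw [Measure.real, Measure.real, ← this]
  rfl

theorem Good.F1_eq_cdf (h : Good ν) (y : ℝ) : F1 ν y = ProbabilityTheory.cdf (ν.map Prod.fst) y := by
  have := h.prob
  have : IsProbabilityMeasure (ν.map Prod.fst) :=
    Measure.isProbabilityMeasure_map measurable_fst.aemeasurable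
  rw [ProbabilityTheory.cdf_eq_real, Measure.real, Measure.map_apply measurable_fst measurableSet_Iic]
  rfl

theorem Good.F1_mono (h : Good ν) : Monotone (F1 ν) := by
  intro a b hab
  rw [h.F1_eq_cdf, h.F1_eq_cdf]
  exact ProbabilityTheory.monotone_cdf _ hab

theorem Good.F1_cont (h : Good ν) : Continuous (F1 ν) := by
  have hp := h.prob
  have : IsProbabilityMeasure (ν.map Prod.fst) :=
    Measure.isProbabilityMeasure_map measurable_fst.aemeasurable
  have heq : F1 ν = ProbabilityTheory.cdf (ν.map Prod.fst) := funext h.F1_eq_cdf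
  rw [heq]
  rw [continuous_iff_continuousAt]
  intro a
  rw [(ProbabilityTheory.monotone_cdf _).continuousAt_iff_leftLim_eq_rightLim,
    StieltjesFunction.rightLim_eq]
  have h1 := StieltjesFunction.measure_singleton (ProbabilityTheory.cdf (ν.map Prod.fst)) a
  rw [ProbabilityTheory.measure_cdf, Measure.map_apply measurable_fst (measurableSet_singleton a)] at h1
  have h2 : ν (Prod.fst ⁻¹' {a}) = 0 := h.ac (volume_fst_eq a)
  rw [h2] at h1
  have h3 := ENNReal.ofReal_eq_zero.mp h1.symm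
  have h4 := (ProbabilityTheory.monotone_cdf (ν.map Prod.fst)).leftLim_le (le_refl a)
  linarith

theorem Good.F1_strict (h : Good ν) : StrictMonoOn (F1 ν) (Icc 0 1) := by
  intro s hs t ht hst
  have hp := h.prob
  set B : Set (ℝ × ℝ) := {u | s < u.1 ∧ u.1 < t} ∩ T with hB
  have hBo : IsOpen B := by
    refine IsOpen.inter ?_ isOpen_T
    exact (isOpen_lt continuous_const continuous_fst).inter (isOpen_lt continuous_fst continuous_const)
  have hBn : B.Nonempty := by
    refine ⟨((s + t) / 2, (1 - (s + t) / 2) / 2), ?_⟩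
    have h1 := hs.1
    have h2 := ht.2
    refine ⟨⟨?_, ?_⟩, ?_, ?_, ?_⟩ <;> simp only <;> linarith
  have hpos := h.pos B hBo hBn inter_subset_right
  have hdis : Disjoint {u : ℝ × ℝ | u.1 ≤ s} B := by
    rw [Set.disjoint_left]
    intro u hu hu2
    exact absurd hu2.1.1 (not_lt.mpr hu)
  have hsub : {u : ℝ × ℝ | u.1 ≤ s} ∪ B ⊆ {u | u.1 ≤ t} := by
    rintro u (hu | hu)
    · exact le_trans hu hst.le
    · exact hu.1.2.le
  unfold F1
  have h1 : ν.real ({u : ℝ × ℝ | u.1 ≤ s} ∪ B) = ν.real {u | u.1 ≤ s} + ν.real B :=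
    measureReal_union hdis hBo.measurableSet
  have h2 : ν.real ({u : ℝ × ℝ | u.1 ≤ s} ∪ B) ≤ ν.real {u | u.1 ≤ t} := measureReal_mono hsub
  have h3 : 0 < ν.real B := ENNReal.toReal_pos hpos.ne' (measure_ne_top _ _)
  linarith

theorem Good.F1_zero (h : Good ν) : F1 ν 0 = 0 := by
  unfold F1
  rw [Measure.real]
  have : ν {u | u.1 ≤ 0} = 0 := by
    refine measure_mono_null ?_ h.carried
    intro u hu hT
    exact absurd hT.1 (not_lt.mpr hu)
  rw [this]; rfl

theorem Good.F1_one (h : Good ν) : F1 ν 1 = 1 := by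
  have hp := h.prob
  unfold F1
  rw [Measure.real]
  have : ν {u | u.1 ≤ 1} = 1 := by
    rw [← prob_compl_eq_zero_iff (measurableSet_fst_le 1)]
    refine measure_mono_null ?_ h.carried
    intro u hu hT
    have h0 : ¬ (u.1 ≤ 1) := hu
    have h1 := hT.2.1
    have h2 := hT.2.2
    apply h0
    linarith
  rw [this]; rfl

theorem F1_nonneg (ν : Measure (ℝ × ℝ)) (y : ℝ) : 0 ≤ F1 ν y := measureReal_nonneg

theorem Good.F1_le_one (h : Good ν) (y : ℝ) : F1 ν y ≤ 1 := by
  have := h.prob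
  exact measureReal_le_one

theorem Good.goodPhi (h : Good ν) : GoodPhi (F1 ν) := ⟨h.F1_mono, h.F1_cont, h.F1_strict, h.F1_zero⟩

theorem GoodPhi.pos (hφ : GoodPhi φ) {t : ℝ} (h0 : 0 < t) (h1 : t ≤ 1) : 0 < φ t := by
  have := hφ.strict ⟨le_rfl, zero_le_one⟩ ⟨h0.le, h1⟩ h0
  rwa [hφ.zero] at this

theorem T_fst {u : ℝ × ℝ} (hu : u ∈ T) : u.1 ∈ Ioo (0 : ℝ) 1 := by
  have h1 := hu.1
  have h2 := hu.2.1
  have h3 := hu.2.2
  constructor <;> linarith

theorem T_snd {u : ℝ × ℝ} (hu : u ∈ T) : u.2 ∈ Ioo (0 : ℝ) 1 := by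
  have h1 := hu.1
  have h2 := hu.2.1
  have h3 := hu.2.2
  constructor <;> linarith

/-- Key equivalence describing the region of integration. -/
theorem region_iff (hφ : GoodPhi φ) (hψ : GoodPhi ψ)
    {G : ℝ → ℝ} (hG1 : ∀ t ∈ Icc (0 : ℝ) 1, ∀ y, y < φ t → G y ≤ ψ t)
    (hG2 : ∀ t, ψ t ≤ G (φ t)) {u x : ℝ} (hu : u ∈ Ioo (0 : ℝ) 1) :
    (φ u : EReal) ≤ ginv G x ↔ ψ u ≤ x := by
  constructor
  · intro hle
    by_contra hlt
    push Not at hlt
    have hev : ∀ᶠ t in 𝓝[<] u, x < ψ t :=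
      (hψ.cont.continuousAt.tendsto.mono_left nhdsWithin_le_nhds).eventually (lt_mem_nhds hlt)
    have hev2 : ∀ᶠ t in 𝓝[<] u, t ∈ Ioo 0 u := Ioo_mem_nhdsLT hu.1
    obtain ⟨t, ht1, ht2⟩ := (hev.and hev2).exists
    have h1 : ginv G x ≤ (φ t : EReal) := by
      unfold ginv
      exact sInf_le ⟨φ t, rfl, ht1.le.trans (hG2 t)⟩
    have h2 : φ t < φ u := hφ.strict ⟨ht2.1.le, (ht2.2.trans hu.2).le⟩ ⟨hu.1.le, hu.2.le⟩ ht2.2
    have h3 : (φ u : EReal) ≤ (φ t : EReal) := hle.trans h1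
    rw [EReal.coe_le_coe_iff] at h3
    linarith
  · intro hle
    unfold ginv
    refine le_sInf ?_
    rintro z ⟨y, rfl, hy⟩
    rw [EReal.coe_le_coe_iff]
    by_contra hlt
    push Not at hlt
    have hev : ∀ᶠ t in 𝓝[<] u, y < φ t :=
      (hφ.cont.continuousAt.tendsto.mono_left nhdsWithin_le_nhds).eventually (lt_mem_nhds hlt)
    have hev2 : ∀ᶠ t in 𝓝[<] u, t ∈ Ioo 0 u := Ioo_mem_nhdsLT hu.1
    obtain ⟨t, ht1, ht2⟩ := (hev.and hev2).exists
    have h1 := hG1 t ⟨ht2.1.le, (ht2.2.trans hu.2).le⟩ y ht1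
    have h2 : ψ t < ψ u := hψ.strict ⟨ht2.1.le, (ht2.2.trans hu.2).le⟩ ⟨hu.1.le, hu.2.le⟩ ht2.2
    linarith

/-- The image law. -/
noncomputable def push (φ : ℝ → ℝ) (ν : Measure (ℝ × ℝ)) : Measure (ℝ × ℝ) :=
  ν.map (Prod.map φ φ)

theorem GoodPhi.measurable_map (hφ : GoodPhi φ) : Measurable (Prod.map φ φ) :=
  (hφ.cont.prodMap hφ.cont).measurable

theorem F1_push (hφ : GoodPhi φ) (y : ℝ) : F1 (push φ ν) y = ν.real {u | φ u.1 ≤ y} := by
  unfold F1 push
  rw [Measure.real, Measure.map_apply hφ.measurable_map (measurableSet_fst_le y)]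
  rfl

theorem Good.F2_push (h : Good ν) (hφ : GoodPhi φ) : F2 (push φ ν) = F1 (push φ ν) := by
  funext y
  unfold F1 F2 push
  rw [Measure.real, Measure.real, Measure.map_apply hφ.measurable_map (measurableSet_fst_le y),
    Measure.map_apply hφ.measurable_map (measurableSet_snd_le y)]
  have := h.measure_swap (s := Prod.map φ φ ⁻¹' {u | u.1 ≤ y})
    (hφ.measurable_map (measurableSet_fst_le y))
  rw [← this]
  rfl

theorem Good.G1 (h : Good ν) (hφ : GoodPhi φ) :
    ∀ t ∈ Icc (0 : ℝ) 1, ∀ y, y < φ t → F1 (push φ ν) y ≤ F1 ν t := by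
  intro t ht y hy
  have hp := h.prob
  rw [F1_push hφ]
  unfold F1
  refine ENNReal.toReal_mono (measure_ne_top _ _) (measure_mono_ae ?_)
  filter_upwards [h.ae_T] with u hu hu2
  have hu2' : φ u.1 ≤ y := hu2
  show u.1 ≤ t
  by_contra hlt
  push Not at hlt
  have h1 := T_fst hu
  have := hφ.strict ht ⟨h1.1.le, h1.2.le⟩ hlt
  linarith

theorem Good.G2 (h : Good ν) (hφ : GoodPhi φ) (t : ℝ) : F1 ν t ≤ F1 (push φ ν) (φ t) := by
  have hp := h.prob
  rw [F1_push hφ]
  unfold F1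
  refine measureReal_mono ?_
  intro u hu
  exact hφ.mono hu

/-- The weight. -/
noncomputable def D (φ : ℝ → ℝ) (u : ℝ × ℝ) : ℝ≥0∞ := ENNReal.ofReal (φ u.1) * ENNReal.ofReal (φ u.2)

theorem GoodPhi.measurable_D (hφ : GoodPhi φ) : Measurable (D φ) :=
  (ENNReal.measurable_ofReal.comp (hφ.cont.measurable.comp measurable_fst)).mul
    (ENNReal.measurable_ofReal.comp (hφ.cont.measurable.comp measurable_snd))

theorem GoodPhi.D_le (hφ : GoodPhi φ) {u : ℝ × ℝ} (hu : u ∈ T) :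
    D φ u ≤ ENNReal.ofReal (φ 1) * ENNReal.ofReal (φ 1) := by
  unfold D
  gcongr
  · exact hφ.mono (T_fst hu).2.le
  · exact hφ.mono (T_snd hu).2.le

theorem GoodPhi.D_pos (hφ : GoodPhi φ) {u : ℝ × ℝ} (hu : u ∈ T) : 0 < D φ u := by
  unfold D
  refine ENNReal.mul_pos ?_ ?_
  · exact (ENNReal.ofReal_pos.mpr (hφ.pos (T_fst hu).1 (T_fst hu).2.le)).ne'
  · exact (ENNReal.ofReal_pos.mpr (hφ.pos (T_snd hu).1 (T_snd hu).2.le)).ne'

/-- Total weight. -/
noncomputable def Z (φ : ℝ → ℝ) (ν : Measure (ℝ × ℝ)) : ℝ≥0∞ := ∫⁻ u, D φ u ∂ν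

theorem Good.Z_ne_top (h : Good ν) (hφ : GoodPhi φ) : Z φ ν ≠ ∞ := by
  have hp := h.prob
  have h1 : Z φ ν ≤ ∫⁻ _, ENNReal.ofReal (φ 1) * ENNReal.ofReal (φ 1) ∂ν := by
    unfold Z
    refine lintegral_mono_ae ?_
    filter_upwards [h.ae_T] with u hu using hφ.D_le hu
  rw [lintegral_const, measure_univ, mul_one] at h1
  exact (lt_of_le_of_lt h1 (ENNReal.mul_lt_top ENNReal.ofReal_lt_top ENNReal.ofReal_lt_top)).ne

theorem Good.Z_ne_zero (h : Good ν) (hφ : GoodPhi φ) : Z φ ν ≠ 0 := by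
  have hp := h.prob
  unfold Z
  rw [Ne, lintegral_eq_zero_iff hφ.measurable_D]
  intro h0
  have h1 : ∀ᵐ u ∂ν, False := by
    filter_upwards [h0, h.ae_T] with u hu1 hu2
    exact (hφ.D_pos hu2).ne' hu1
  have h2 : ν = 0 := by
    rw [Filter.eventually_false_iff_eq_bot, ae_eq_bot] at h1
    exact h1
  have h3 : ν univ = 1 := measure_univ
  rw [h2] at h3
  simp at h3

/-- The size-biased law. -/
noncomputable def next (φ : ℝ → ℝ) (ν : Measure (ℝ × ℝ)) : Measure (ℝ × ℝ) :=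
  (Z φ ν)⁻¹ • ν.withDensity (D φ)

theorem next_apply (φ : ℝ → ℝ) (ν : Measure (ℝ × ℝ)) {s : Set (ℝ × ℝ)} (hs : MeasurableSet s) :
    next φ ν s = (Z φ ν)⁻¹ * ∫⁻ u in s, D φ u ∂ν := by
  unfold next
  rw [Measure.smul_apply, withDensity_apply _ hs, smul_eq_mul]

theorem next_ac (φ : ℝ → ℝ) (ν : Measure (ℝ × ℝ)) : next φ ν ≪ ν :=
  (withDensity_absolutelyContinuous _ _).smul_left _

theorem D_swap (φ : ℝ → ℝ) (u : ℝ × ℝ) : D φ u.swap = D φ u := by
  unfold D
  rw [Prod.fst_swap, Prod.snd_swap, mul_comm]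

theorem Good.next (h : Good ν) (hφ : GoodPhi φ) : Good (next φ ν) := by
  have hp := h.prob
  refine ⟨⟨?_⟩, (next_ac φ ν).trans h.ac, next_ac φ ν h.carried, ?_, ?_⟩
  · rw [next_apply _ _ MeasurableSet.univ, Measure.restrict_univ]
    exact ENNReal.inv_mul_cancel (h.Z_ne_zero hφ) (h.Z_ne_top hφ)
  · intro B hBo hBn hBT
    rw [next_apply _ _ hBo.measurableSet]
    refine ENNReal.mul_pos (ENNReal.inv_ne_zero.mpr (h.Z_ne_top hφ)) ?_
    intro h0
    rw [lintegral_eq_zero_iff hφ.measurable_D] at h0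
    have h1 : ∀ᵐ u ∂(ν.restrict B), u ∈ B := ae_restrict_mem hBo.measurableSet
    have h2 : ∀ᵐ u ∂(ν.restrict B), False := by
      filter_upwards [h0, h1] with u hu1 hu2
      exact (hφ.D_pos (hBT hu2)).ne' hu1
    rw [Filter.eventually_false_iff_eq_bot, ae_eq_bot, Measure.restrict_eq_zero] at h2
    exact (h.pos B hBo hBn hBT).ne' h2
  · ext s hs
    rw [Measure.map_apply measurable_swap hs, next_apply _ _ (measurable_swap hs), next_apply _ _ hs]
    congr 1
    conv_rhs => rw [← h.symm]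
    rw [setLIntegral_map hs hφ.measurable_D measurable_swap]
    refine lintegral_congr fun u => ?_
    rw [D_swap]

theorem measurableSet_box (φ : ℝ → ℝ) (hφ : GoodPhi φ) (x₁ x₂ : ℝ) :
    MeasurableSet {u : ℝ × ℝ | φ u.1 ≤ x₁ ∧ φ u.2 ≤ x₂} :=
  (measurableSet_le (hφ.cont.measurable.comp measurable_fst) measurable_const).inter
    (measurableSet_le (hφ.cont.measurable.comp measurable_snd) measurable_const)

theorem df_push (hφ : GoodPhi φ) (x₁ x₂ : ℝ) :
    df (push φ ν) x₁ x₂ = ν.real {u | φ u.1 ≤ x₁ ∧ φ u.2 ≤ x₂} := by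
  unfold df push
  have hm : MeasurableSet {u : ℝ × ℝ | u.1 ≤ x₁ ∧ u.2 ≤ x₂} :=
    (measurableSet_fst_le x₁).inter (measurableSet_snd_le x₂)
  rw [Measure.real, Measure.map_apply hφ.measurable_map hm]
  rfl

/-- The integral of `φ(u₁)φ(u₂)` as a lower integral. -/
theorem Good.setIntegral_eq (h : Good ν) (hφ : GoodPhi φ) (s : Set (ℝ × ℝ)) :
    ∫ u in s, φ u.1 * φ u.2 ∂ν = (∫⁻ u in s, D φ u ∂ν).toReal := by
  have hae : ∀ᵐ u ∂(ν.restrict s), u ∈ T := ae_restrict_of_ae h.ae_T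
  rw [integral_eq_lintegral_of_nonneg_ae]
  · congr 1
    refine lintegral_congr_ae ?_
    filter_upwards [hae] with u hu
    unfold D
    rw [ENNReal.ofReal_mul (hφ.pos (T_fst hu).1 (T_fst hu).2.le).le]
  · filter_upwards [hae] with u hu
    exact mul_nonneg (hφ.pos (T_fst hu).1 (T_fst hu).2.le).le (hφ.pos (T_snd hu).1 (T_snd hu).2.le).le
  · exact ((hφ.cont.comp continuous_fst).mul (hφ.cont.comp continuous_snd)).aestronglyMeasurable

/-- One step of the Lorenz iteration. -/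
theorem Good.lorenz_push (h : Good ν) (hφ : GoodPhi φ) (x₁ x₂ : ℝ) :
    lorenz (push φ ν) x₁ x₂ = df (push (F1 ν) (Pool.Agent.Results.MP_357d86_pr.TriangleDependence.next φ ν)) x₁ x₂ := by
  have hp := h.prob
  have hψ := h.goodPhi
  unfold lorenz mu
  rw [h.F2_push hφ]
  have hmeas : MeasurableSet {v : ℝ × ℝ | (v.1 : EReal) ≤ ginv (F1 (push φ ν)) x₁ ∧
      (v.2 : EReal) ≤ ginv (F1 (push φ ν)) x₂} :=
    (measurableSet_le (measurable_coe_real_ereal.comp measurable_fst) measurable_const).inter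
      (measurableSet_le (measurable_coe_real_ereal.comp measurable_snd) measurable_const)
  have hasm : AEStronglyMeasurable (fun v : ℝ × ℝ => v.1 * v.2) (ν.map (Prod.map φ φ)) :=
    (continuous_fst.mul continuous_snd).aestronglyMeasurable
  have h1 : ∫ v in {v : ℝ × ℝ | (v.1 : EReal) ≤ ginv (F1 (push φ ν)) x₁ ∧
      (v.2 : EReal) ≤ ginv (F1 (push φ ν)) x₂}, v.1 * v.2 ∂(push φ ν)
      = ∫ u in {u : ℝ × ℝ | F1 ν u.1 ≤ x₁ ∧ F1 ν u.2 ≤ x₂}, φ u.1 * φ u.2 ∂ν := by
    generalize hg : ginv (F1 (push φ ν)) = g at *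
    have hpush : push φ ν = ν.map (Prod.map φ φ) := rfl
    rw [hpush, setIntegral_map hmeas hasm hφ.measurable_map.aemeasurable]
    rw [← hg]
    show ∫ u in _, φ u.1 * φ u.2 ∂ν = _
    refine setIntegral_congr_set ?_
    filter_upwards [h.ae_T] with u hu
    have e1 := region_iff (x := x₁) hφ hψ (h.G1 hφ) (h.G2 hφ) (T_fst hu)
    have e2 := region_iff (x := x₂) hφ hψ (h.G1 hφ) (h.G2 hφ) (T_snd hu)
    exact propext (and_congr e1 e2)
  have h2 : ∫ v, v.1 * v.2 ∂(push φ ν) = (Z φ ν).toReal := by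
    unfold push
    rw [integral_map hφ.measurable_map.aemeasurable hasm]
    have := h.setIntegral_eq hφ univ
    rw [Measure.restrict_univ] at this
    exact this
  rw [h1, h2, df_push hψ, Measure.real, next_apply _ _ (measurableSet_box _ hψ _ _),
    h.setIntegral_eq hφ, ENNReal.toReal_mul, ENNReal.toReal_inv, one_div]

end good

/-! ### The basic inequality -/

/-- The triangle `0 < u₂ < u₁ < 1/2`. -/
def S0 : Set (ℝ × ℝ) := {u | 0 < u.2 ∧ u.2 < u.1 ∧ u.1 < 1 / 2}

/-- The triangle `u₁ > 1/2`, `0 < u₂ < 1 - u₁`. -/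
def D1 : Set (ℝ × ℝ) := {u | 0 < u.2 ∧ u.2 < 1 - u.1 ∧ 1 / 2 < u.1}

theorem measurableSet_S0 : MeasurableSet S0 :=
  (measurableSet_lt measurable_const measurable_snd).inter
    ((measurableSet_lt measurable_snd measurable_fst).inter
      (measurableSet_lt measurable_fst measurable_const))

theorem measurableSet_D1 : MeasurableSet D1 :=
  (measurableSet_lt measurable_const measurable_snd).inter
    ((measurableSet_lt measurable_snd (measurable_const.sub measurable_fst)).inter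
      (measurableSet_lt measurable_const measurable_fst))

theorem S0_subset : S0 ⊆ T := by
  intro u hu
  have h1 := hu.1
  have h2 := hu.2.1
  have h3 := hu.2.2
  refine ⟨?_, ?_, ?_⟩ <;> linarith

theorem D1_subset : D1 ⊆ T := by
  intro u hu
  have h1 := hu.1
  have h2 := hu.2.1
  have h3 := hu.2.2
  refine ⟨?_, ?_, ?_⟩ <;> linarith

/-- Product shape of a law relative to `P`. -/
def Shape (P ν : Measure (ℝ × ℝ)) : Prop :=
  ∃ (a : ℝ≥0∞) (W : ℝ → ℝ≥0∞), Monotone W ∧ ν = a • P.withDensity (fun u => W u.1 * W u.2)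

theorem shape_refl (P : Measure (ℝ × ℝ)) : Shape P P := by
  refine ⟨1, fun _ => 1, monotone_const, ?_⟩
  rw [one_smul]
  simp

theorem measurable_WW {W : ℝ → ℝ≥0∞} (hW : Monotone W) :
    Measurable (fun u : ℝ × ℝ => W u.1 * W u.2) :=
  (hW.measurable.comp measurable_fst).mul (hW.measurable.comp measurable_snd)

theorem Shape.next {P ν : Measure (ℝ × ℝ)} {φ : ℝ → ℝ} (h : Shape P ν) (hφ : GoodPhi φ) :
    Shape P (next φ ν) := by
  obtain ⟨a, W, hW, rfl⟩ := h
  have hW' : Monotone (fun x => W x * ENNReal.ofReal (φ x)) := by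
    intro x y hxy
    exact mul_le_mul' (hW hxy) (ENNReal.ofReal_le_ofReal (hφ.mono hxy))
  refine ⟨(Z φ (a • P.withDensity (fun u => W u.1 * W u.2)))⁻¹ * a,
    fun x => W x * ENNReal.ofReal (φ x), hW', ?_⟩
  unfold TriangleDependence.next
  rw [withDensity_smul_measure, ← withDensity_mul _ (measurable_WW hW) hφ.measurable_D, smul_smul]
  congr 2
  funext u
  simp only [Pi.mul_apply, D]
  ring

theorem key_ineq {P ν : Measure (ℝ × ℝ)} {k : ℝ≥0∞}
    (h1 : k • volume.restrict T ≤ P) (h2 : P ≤ (2 * k) • volume.restrict T)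
    (h : Shape P ν) : ν S0 ≤ 2 * ν {u | 1 / 2 < u.1} := by
  obtain ⟨a, W, hW, rfl⟩ := h
  have hmW := measurable_WW hW
  have step1 : ∫⁻ u in S0, W u.1 * W u.2 ∂P ≤ (2 * k) * ∫⁻ u in S0, W u.1 * W u.2 := by
    calc ∫⁻ u in S0, W u.1 * W u.2 ∂P
        ≤ ∫⁻ u in S0, W u.1 * W u.2 ∂((2 * k) • volume.restrict T) :=
          lintegral_mono' (Measure.restrict_mono subset_rfl h2) le_rfl
      _ = (2 * k) * ∫⁻ u in S0, W u.1 * W u.2 ∂(volume.restrict T) := by
          rw [Measure.restrict_smul, lintegral_smul_measure, smul_eq_mul]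
      _ = (2 * k) * ∫⁻ u in S0, W u.1 * W u.2 := by
          rw [Measure.restrict_restrict measurableSet_S0, inter_eq_left.mpr S0_subset]
  have step2 : ∫⁻ u in S0, W u.1 * W u.2 ≤ ∫⁻ u in S0, W (1 - u.1) * W u.2 := by
    refine setLIntegral_mono' measurableSet_S0 ?_
    intro u hu
    have hu3 := hu.2.2
    exact mul_le_mul_left (hW (by linarith)) _
  have step3 : ∫⁻ u in S0, W (1 - u.1) * W u.2 = ∫⁻ u in D1, W u.1 * W u.2 := by
    have hmp : MeasurePreserving (Prod.map (fun x : ℝ => 1 - x) (id : ℝ → ℝ))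
        (volume : Measure (ℝ × ℝ)) volume := by
      rw [Measure.volume_eq_prod]
      exact (Measure.measurePreserving_sub_left volume (1 : ℝ)).prod (MeasurePreserving.id volume)
    have := hmp.setLIntegral_comp_preimage measurableSet_D1 hmW
    rw [← this]
    have hpre : (Prod.map (fun x : ℝ => 1 - x) (id : ℝ → ℝ)) ⁻¹' D1 = S0 := by
      ext u
      simp only [D1, S0, mem_preimage]
      constructor
      · rintro ⟨a, b, c⟩
        simp only [Prod.map_fst, Prod.map_snd, id] at a b c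
        refine ⟨a, ?_, ?_⟩ <;> linarith
      · rintro ⟨a, b, c⟩
        refine ⟨a, ?_, ?_⟩ <;> simp only [Prod.map_fst, Prod.map_snd, id] <;> linarith
    rw [hpre]
    rfl
  have step4 : k * ∫⁻ u in D1, W u.1 * W u.2 ≤ ∫⁻ u in D1, W u.1 * W u.2 ∂P := by
    calc k * ∫⁻ u in D1, W u.1 * W u.2
        = k * ∫⁻ u in D1, W u.1 * W u.2 ∂(volume.restrict T) := by
          rw [Measure.restrict_restrict measurableSet_D1, inter_eq_left.mpr D1_subset]
      _ = ∫⁻ u in D1, W u.1 * W u.2 ∂(k • volume.restrict T) := by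
          rw [Measure.restrict_smul, lintegral_smul_measure, smul_eq_mul]
      _ ≤ ∫⁻ u in D1, W u.1 * W u.2 ∂P :=
          lintegral_mono' (Measure.restrict_mono subset_rfl h1) le_rfl
  have hD1 : D1 ⊆ {u : ℝ × ℝ | 1 / 2 < u.1} := fun u hu => hu.2.2
  calc (a • P.withDensity (fun u => W u.1 * W u.2)) S0
      = a * ∫⁻ u in S0, W u.1 * W u.2 ∂P := by
        rw [Measure.smul_apply, withDensity_apply _ measurableSet_S0, smul_eq_mul]
    _ ≤ a * ((2 * k) * ∫⁻ u in D1, W u.1 * W u.2) := by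
        gcongr
        exact step1.trans (mul_le_mul_right (step2.trans step3.le) _)
    _ = 2 * (a * (k * ∫⁻ u in D1, W u.1 * W u.2)) := by ring
    _ ≤ 2 * (a * ∫⁻ u in D1, W u.1 * W u.2 ∂P) := by gcongr
    _ = 2 * (a • P.withDensity (fun u => W u.1 * W u.2)) D1 := by
        rw [Measure.smul_apply, withDensity_apply _ measurableSet_D1, smul_eq_mul]
    _ ≤ 2 * (a • P.withDensity (fun u => W u.1 * W u.2)) {u | 1 / 2 < u.1} := by
        gcongr

/-- The deviation from independence at the middle of the hypotenuse. -/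
theorem deviation {P ν : Measure (ℝ × ℝ)} {k : ℝ≥0∞}
    (h1 : k • volume.restrict T ≤ P) (h2 : P ≤ (2 * k) • volume.restrict T)
    (h : Shape P ν) (hg : Good ν) :
    1 / 36 ≤ F1 ν (1 / 2) * F1 ν (1 / 2) - ν.real {u | u.1 ≤ 1 / 2 ∧ u.2 ≤ 1 / 2} := by
  have hp := hg.prob
  set S : Set (ℝ × ℝ) := {u | u.1 ≤ 1 / 2 ∧ u.2 ≤ 1 / 2} with hS
  have hSm : MeasurableSet S := (measurableSet_fst_le _).inter (measurableSet_snd_le _)
  set U : Set (ℝ × ℝ) := {u | 1 / 2 < u.1} with hU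
  set V : Set (ℝ × ℝ) := {u | 1 / 2 < u.2} with hV
  have hUm : MeasurableSet U := measurableSet_lt measurable_const measurable_fst
  have hVm : MeasurableSet V := measurableSet_lt measurable_const measurable_snd
  -- `a = ν U = ν V`
  have hVU : ν.real V = ν.real U := by
    rw [Measure.real, Measure.real, ← hg.measure_swap hUm]
    rfl
  have hFU : F1 ν (1 / 2) = 1 - ν.real U := by
    have : {u : ℝ × ℝ | u.1 ≤ 1 / 2} = Uᶜ := by
      ext u
      show u.1 ≤ 1 / 2 ↔ ¬ (1 / 2 < u.1)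
      exact not_lt.symm
    unfold F1
    rw [this, measureReal_compl hUm, probReal_univ]
  -- `ν S = 1 - 2 a`
  have hSU : ν.real S = 1 - 2 * ν.real U := by
    have hdisj : ν.real (U ∪ V) = ν.real U + ν.real V := by
      have h0 : ν (U ∩ V) = 0 := by
        refine measure_mono_null ?_ hg.carried
        rintro u ⟨hu1, hu2⟩ hT
        have h3 := hT.2.2
        have hu1' : 1 / 2 < u.1 := hu1
        have hu2' : 1 / 2 < u.2 := hu2
        linarith
      have := measureReal_union_add_inter (μ := ν) (s := U) hVm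
      have h00 : ν.real (U ∩ V) = 0 := by rw [Measure.real, h0]; rfl
      linarith
    have hcompl : S = (U ∪ V)ᶜ := by
      ext u
      show (u.1 ≤ 1 / 2 ∧ u.2 ≤ 1 / 2) ↔ ¬ (1 / 2 < u.1 ∨ 1 / 2 < u.2)
      rw [not_or, not_lt, not_lt]
    rw [hcompl, measureReal_compl (hUm.union hVm), probReal_univ, hdisj, hVU]
    ring
  -- `ν S ≤ 4 a`
  have hS4 : ν.real S ≤ 4 * ν.real U := by
    have hkey := key_ineq h1 h2 h
    have hcov : S ⊆ ((S0 ∪ Prod.swap ⁻¹' S0) ∪ ({u | u.1 = 1 / 2} ∪ {u | u.2 = 1 / 2}))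
        ∪ ({u | u.1 = u.2} ∪ Tᶜ) := by
      intro u hu
      by_cases hT : u ∈ T
      · have hu1 : u.1 ≤ 1 / 2 := hu.1
        have hu2 : u.2 ≤ 1 / 2 := hu.2
        rcases eq_or_lt_of_le hu1 with e1 | e1
        · exact Or.inl (Or.inr (Or.inl e1))
        rcases eq_or_lt_of_le hu2 with e2 | e2
        · exact Or.inl (Or.inr (Or.inr e2))
        rcases lt_trichotomy u.1 u.2 with e | e | e
        · exact Or.inl (Or.inl (Or.inr ⟨hT.1, e, e2⟩))
        · exact Or.inr (Or.inl e)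
        · exact Or.inl (Or.inl (Or.inl ⟨hT.2.1, e, e1⟩))
      · exact Or.inr (Or.inr hT)
    have hle : ν S ≤ 2 * ν S0 := by
      calc ν S ≤ ν (((S0 ∪ Prod.swap ⁻¹' S0) ∪ ({u | u.1 = 1 / 2} ∪ {u | u.2 = 1 / 2}))
        ∪ ({u | u.1 = u.2} ∪ Tᶜ)) := measure_mono hcov
        _ ≤ ((ν S0 + ν (Prod.swap ⁻¹' S0)) + (ν {u | u.1 = 1 / 2} + ν {u | u.2 = 1 / 2}))
          + (ν {u | u.1 = u.2} + ν Tᶜ) := by
            refine (measure_union_le _ _).trans (add_le_add ?_ (measure_union_le _ _))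
            exact (measure_union_le _ _).trans (add_le_add (measure_union_le _ _) (measure_union_le _ _))
        _ = 2 * ν S0 := by
            rw [hg.measure_swap measurableSet_S0, hg.carried, hg.ac (volume_fst_eq _),
              hg.ac (volume_snd_eq _), hg.ac volume_diag]
            ring
    have hle2 : ν S ≤ 4 * ν U := by
      calc ν S ≤ 2 * ν S0 := hle
        _ ≤ 2 * (2 * ν U) := by gcongr
        _ = 4 * ν U := by ring
    have h4 : (4 : ℝ) = (4 : ℝ≥0∞).toReal := by norm_num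
    rw [Measure.real, Measure.real, h4, ← ENNReal.toReal_mul]
    exact ENNReal.toReal_mono (ENNReal.mul_ne_top (by norm_num) (measure_ne_top _ _)) hle2
  have ha : 1 / 6 ≤ ν.real U := by linarith
  rw [hFU, hSU]
  nlinarith

/-! ### The law `P₀` -/

/-- The square `(1/4, 1/2)²`. -/
def A : Set (ℝ × ℝ) := Ioo (1 / 4 : ℝ) (1 / 2) ×ˢ Ioo (1 / 4 : ℝ) (1 / 2)

theorem A_subset : A ⊆ T := by
  rintro u ⟨h1, h2⟩
  have a1 := h1.1
  have a2 := h1.2
  have b1 := h2.1
  have b2 := h2.2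
  refine ⟨?_, ?_, ?_⟩ <;> linarith

theorem isOpen_A : IsOpen A := isOpen_Ioo.prod isOpen_Ioo

theorem measurableSet_A : MeasurableSet A := isOpen_A.measurableSet

theorem volume_T_ne_top : volume T ≠ ∞ := by
  have : T ⊆ Icc (0 : ℝ) 1 ×ˢ Icc (0 : ℝ) 1 := by
    intro u hu
    exact ⟨⟨(T_fst hu).1.le, (T_fst hu).2.le⟩, ⟨(T_snd hu).1.le, (T_snd hu).2.le⟩⟩
  exact (lt_of_le_of_lt (measure_mono this) (isCompact_Icc.prod isCompact_Icc).measure_lt_top).ne

theorem T_nonempty : T.Nonempty := by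
  refine ⟨(1 / 4, 1 / 4), ?_, ?_, ?_⟩ <;> norm_num

theorem volume_T_ne_zero : volume T ≠ 0 := (isOpen_T.measure_pos volume T_nonempty).ne'

/-- The normalizing constant. -/
noncomputable def κ : ℝ≥0∞ := (volume T + volume A)⁻¹

theorem vTA_ne_top : volume T + volume A ≠ ∞ :=
  ENNReal.add_ne_top.mpr ⟨volume_T_ne_top,
    ((measure_mono A_subset).trans_lt volume_T_ne_top.lt_top).ne⟩

theorem vTA_ne_zero : volume T + volume A ≠ 0 := by
  intro h
  exact volume_T_ne_zero (add_eq_zero.mp h).1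

theorem κ_ne_zero : κ ≠ 0 := ENNReal.inv_ne_zero.mpr vTA_ne_top

theorem κ_ne_top : κ ≠ ∞ := ENNReal.inv_ne_top.mpr vTA_ne_zero

/-- The density: constant on the triangle, doubled on the square. -/
noncomputable def f0 (u : ℝ × ℝ) : ℝ≥0∞ :=
  κ * (T.indicator (fun _ => 1) u + A.indicator (fun _ => 1) u)

theorem measurable_f0 : Measurable f0 := by
  unfold f0
  exact measurable_const.mul ((measurable_const.indicator measurableSet_T).add
    (measurable_const.indicator measurableSet_A))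

/-- The law. -/
noncomputable def P0 : Measure (ℝ × ℝ) := volume.withDensity f0

theorem P0_eq : P0 = κ • (volume.restrict T + volume.restrict A) := by
  unfold P0
  have : f0 = κ • ((T.indicator (fun _ => 1)) + (A.indicator (fun _ => (1 : ℝ≥0∞)))) := by
    funext u; rfl
  rw [this, withDensity_smul _ ((measurable_const.indicator measurableSet_T).add
    (measurable_const.indicator measurableSet_A)),
    withDensity_add_left (measurable_const.indicator measurableSet_T)]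
  congr 2
  · have := withDensity_indicator_one (μ := (volume : Measure (ℝ × ℝ))) measurableSet_T
    exact this
  · have := withDensity_indicator_one (μ := (volume : Measure (ℝ × ℝ))) measurableSet_A
    exact this

theorem restrict_A_le : (volume : Measure (ℝ × ℝ)).restrict A ≤ volume.restrict T :=
  Measure.restrict_mono A_subset le_rfl

theorem P0_lower : κ • volume.restrict T ≤ P0 := by
  rw [P0_eq]
  intro s
  rw [Measure.smul_apply, Measure.smul_apply, Measure.add_apply, smul_eq_mul, smul_eq_mul]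
  gcongr
  exact le_self_add

theorem P0_upper : P0 ≤ (2 * κ) • volume.restrict T := by
  rw [P0_eq]
  intro s
  rw [Measure.smul_apply, Measure.smul_apply, Measure.add_apply, smul_eq_mul, smul_eq_mul]
  calc κ * (volume.restrict T s + volume.restrict A s)
      ≤ κ * (volume.restrict T s + volume.restrict T s) := by
        exact mul_le_mul_right (add_le_add_right (restrict_A_le s) _) _
    _ = 2 * κ * volume.restrict T s := by ring

theorem map_swap_restrict {B : Set (ℝ × ℝ)} (hB : MeasurableSet B) (hs : Prod.swap ⁻¹' B = B) :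
    ((volume : Measure (ℝ × ℝ)).restrict B).map Prod.swap = volume.restrict B := by
  have h1 := Measure.restrict_map (μ := (volume : Measure (ℝ × ℝ))) measurable_swap hB
  rw [hs] at h1
  rw [← h1]
  congr 1
  rw [Measure.volume_eq_prod]
  exact Measure.prod_swap

theorem swap_T : Prod.swap ⁻¹' T = T := by
  ext u
  constructor
  · rintro ⟨a, b, c⟩
    refine ⟨b, a, ?_⟩
    simp only [Prod.fst_swap, Prod.snd_swap] at c
    linarith
  · rintro ⟨a, b, c⟩
    refine ⟨b, a, ?_⟩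
    simp only [Prod.fst_swap, Prod.snd_swap]
    linarith

theorem swap_A : Prod.swap ⁻¹' A = A := by
  ext u
  exact ⟨fun h => ⟨h.2, h.1⟩, fun h => ⟨h.2, h.1⟩⟩

theorem good_P0 : Good P0 := by
  refine ⟨⟨?_⟩, ?_, ?_, ?_, ?_⟩
  · rw [P0_eq, Measure.smul_apply, Measure.add_apply, Measure.restrict_apply_univ,
      Measure.restrict_apply_univ, smul_eq_mul]
    exact ENNReal.inv_mul_cancel vTA_ne_zero vTA_ne_top
  · exact withDensity_absolutelyContinuous _ _
  · have h := P0_upper Tᶜ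
    rw [Measure.smul_apply, Measure.restrict_apply measurableSet_T.compl, compl_inter_self,
      measure_empty, smul_zero] at h
    exact le_antisymm h bot_le
  · intro B hBo hBn hBT
    have h := P0_lower B
    rw [Measure.smul_apply, Measure.restrict_apply hBo.measurableSet, inter_eq_left.mpr hBT,
      smul_eq_mul] at h
    exact lt_of_lt_of_le (ENNReal.mul_pos κ_ne_zero (hBo.measure_pos volume hBn).ne') h
  · rw [P0_eq, Measure.map_smul, Measure.map_add _ _ measurable_swap,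
      map_swap_restrict measurableSet_T swap_T, map_swap_restrict measurableSet_A swap_A]

/-! ### Uniqueness of the law with a given distribution function -/

theorem law_unique {M M' : Measure (ℝ × ℝ)} {L : ℝ → ℝ → ℝ} (h : IsLawOf M L) (h' : IsLawOf M' L) :
    M = M' := by
  obtain ⟨hp, hc, hd⟩ := h
  obtain ⟨hp', hc', hd'⟩ := h'
  -- equality of distribution functions everywhere
  have hgen : ∀ (M : Measure (ℝ × ℝ)), IsProbabilityMeasure M →
      M (Icc (0 : ℝ) 1 ×ˢ Icc (0 : ℝ) 1)ᶜ = 0 → ∀ a b : ℝ,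
      M (Iic a ×ˢ Iic b) = if 0 ≤ a ∧ 0 ≤ b then ENNReal.ofReal (df M (min a 1) (min b 1)) else 0 := by
    intro M hp hc a b
    have hae : ∀ᵐ u ∂M, u ∈ Icc (0 : ℝ) 1 ×ˢ Icc (0 : ℝ) 1 := by rw [ae_iff]; exact hc
    split_ifs with hab
    · unfold df
      rw [ofReal_measureReal]
      refine measure_congr ?_
      filter_upwards [hae] with u hu
      have h1 := hu.1.2
      have h2 := hu.2.2
      refine propext ⟨fun hh => ?_, fun hh => ?_⟩
      · exact ⟨le_min hh.1 h1, le_min hh.2 h2⟩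
      · exact ⟨hh.1.trans (min_le_left _ _), hh.2.trans (min_le_left _ _)⟩
    · refine measure_mono_null ?_ hc
      intro u hu hu2
      apply hab
      exact ⟨hu2.1.1.trans hu.1, hu2.2.1.trans hu.2⟩
  have heq : ∀ a b : ℝ, M (Iic a ×ˢ Iic b) = M' (Iic a ×ˢ Iic b) := by
    intro a b
    rw [hgen M hp hc, hgen M' hp' hc']
    split_ifs with hab
    · congr 1
      have ha : min a 1 ∈ Icc (0 : ℝ) 1 := ⟨le_min hab.1 zero_le_one, min_le_right _ _⟩
      have hb : min b 1 ∈ Icc (0 : ℝ) 1 := ⟨le_min hab.2 zero_le_one, min_le_right _ _⟩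
      rw [hd _ ha _ hb, hd' _ ha _ hb]
    · rfl
  have hbor : (borel ℝ) = MeasurableSpace.generateFrom (range Iic) := borel_eq_generateFrom_Iic ℝ
  have hspan : IsCountablySpanning (range (Iic : ℝ → Set ℝ)) := by
    refine ⟨fun n : ℕ => Iic (n : ℝ), fun n => ⟨n, rfl⟩, ?_⟩
    exact eq_univ_of_forall fun x => mem_iUnion.mpr (exists_nat_ge x)
  refine ext_of_generate_finite (image2 (fun x1 x2 => x1 ×ˢ x2) (range (Iic : ℝ → Set ℝ)) (range (Iic : ℝ → Set ℝ)))
    ?_ ?_ ?_ ?_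
  · have := generateFrom_prod_eq hspan hspan
    rw [← hbor] at this
    have hb : (borel ℝ) = (inferInstance : MeasurableSpace ℝ) := (BorelSpace.measurable_eq (α := ℝ)).symm
    rw [hb] at this
    exact this
  · exact isPiSystem_Iic.prod isPiSystem_Iic
  · rintro s ⟨_, ⟨a, rfl⟩, _, ⟨b, rfl⟩, rfl⟩
    exact heq a b
  · rw [measure_univ, measure_univ]

theorem iteration_unique {P : Measure (ℝ × ℝ)} {M M' : ℕ → Measure (ℝ × ℝ)}
    (h : IsLorenzIteration P M) (h' : IsLorenzIteration P M') : M = M' := by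
  funext n
  induction n with
  | zero => exact law_unique h.1 h'.1
  | succ n ih =>
    have h2 := h'.2 n
    rw [← ih] at h2
    exact law_unique (h.2 n) h2

/-! ### The iteration -/

/-- The states of the iteration in the original coordinates. -/
noncomputable def st : ℕ → Measure (ℝ × ℝ) × (ℝ → ℝ)
  | 0 => (P0, fun x => x)
  | n + 1 => (next (st n).2 (st n).1, F1 (st n).1)

theorem st_good (n : ℕ) : Good (st n).1 ∧ GoodPhi (st n).2 ∧ Shape P0 (st n).1 := by
  induction n with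
  | zero => exact ⟨good_P0, goodPhi_id, shape_refl _⟩
  | succ n ih => exact ⟨ih.1.next ih.2.1, ih.1.goodPhi, ih.2.2.next ih.2.1⟩

/-- The iterates. -/
noncomputable def M0 (n : ℕ) : Measure (ℝ × ℝ) := push (st (n + 1)).2 (st (n + 1)).1

theorem M0_law (n : ℕ) : IsLawOf (M0 n) (lorenz (push (st n).2 (st n).1)) := by
  obtain ⟨hg, hφ, _⟩ := st_good n
  obtain ⟨hg', hφ', _⟩ := st_good (n + 1)
  have hp' := hg'.prob
  refine ⟨?_, ?_, ?_⟩
  · unfold M0 push
    exact Measure.isProbabilityMeasure_map hφ'.measurable_map.aemeasurable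
  · unfold M0 push
    rw [Measure.map_apply hφ'.measurable_map (measurableSet_Icc.prod measurableSet_Icc).compl]
    have : Prod.map (st (n + 1)).2 (st (n + 1)).2 ⁻¹' (Icc (0 : ℝ) 1 ×ˢ Icc (0 : ℝ) 1)ᶜ = ∅ := by
      ext u
      simp only [mem_preimage, mem_compl_iff, mem_empty_iff_false, iff_false, not_not]
      exact ⟨⟨F1_nonneg _ _, hg.F1_le_one _⟩, ⟨F1_nonneg _ _, hg.F1_le_one _⟩⟩
    rw [this, measure_empty]
  · intro x₁ _ x₂ _
    rw [hg.lorenz_push hφ]
    rfl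

theorem push_id (ν : Measure (ℝ × ℝ)) : push (fun x => x) ν = ν := by
  unfold push
  have : Prod.map (fun x : ℝ => x) (fun x : ℝ => x) = id := by
    funext u; rfl
  rw [this, Measure.map_id]

theorem M0_iteration : IsLorenzIteration P0 M0 := by
  refine ⟨?_, fun n => M0_law (n + 1)⟩
  have := M0_law 0
  rwa [show push (st 0).2 (st 0).1 = P0 from push_id P0] at this

theorem M0_deviation (n : ℕ) : ∃ x₁ ∈ Icc (0 : ℝ) 1, ∃ x₂ ∈ Icc (0 : ℝ) 1,
    1 / 36 ≤ |df (M0 n) x₁ x₂ - df (M0 n) x₁ 1 * df (M0 n) 1 x₂| := by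
  obtain ⟨hg0, _, _⟩ := st_good n
  obtain ⟨hg, hφ, hsh⟩ := st_good (n + 1)
  have hp := hg.prob
  set ν := (st (n + 1)).1 with hν
  set φ := (st (n + 1)).2 with hφd
  have hφF : φ = F1 (st n).1 := rfl
  have hle1 : ∀ y, φ y ≤ 1 := fun y => by rw [hφF]; exact hg0.F1_le_one y
  have hx : φ (1 / 2) ∈ Icc (0 : ℝ) 1 := by
    rw [hφF]; exact ⟨F1_nonneg _ _, hg0.F1_le_one _⟩
  have hiff : ∀ t ∈ Ioo (0 : ℝ) 1, (φ t ≤ φ (1 / 2) ↔ t ≤ 1 / 2) := by
    intro t ht
    exact hφ.strict.le_iff_le ⟨ht.1.le, ht.2.le⟩ ⟨by norm_num, by norm_num⟩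
  have e1 : df (M0 n) (φ (1 / 2)) (φ (1 / 2)) = ν.real {u | u.1 ≤ 1 / 2 ∧ u.2 ≤ 1 / 2} := by
    unfold M0
    rw [← hν, ← hφd, df_push hφ]
    unfold Measure.real
    congr 1
    refine measure_congr ?_
    filter_upwards [hg.ae_T] with u hu
    exact propext (and_congr (hiff _ (T_fst hu)) (hiff _ (T_snd hu)))
  have e2 : df (M0 n) (φ (1 / 2)) 1 = F1 ν (1 / 2) := by
    unfold M0
    rw [← hν, ← hφd, df_push hφ]
    unfold Measure.real F1
    congr 1
    refine measure_congr ?_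
    filter_upwards [hg.ae_T] with u hu
    exact propext ⟨fun h => (hiff _ (T_fst hu)).mp h.1, fun h => ⟨(hiff _ (T_fst hu)).mpr h, hle1 _⟩⟩
  have e3 : df (M0 n) 1 (φ (1 / 2)) = F1 ν (1 / 2) := by
    unfold M0
    rw [← hν, ← hφd, df_push hφ, ← hg.F2_eq]
    unfold Measure.real F2
    congr 1
    refine measure_congr ?_
    filter_upwards [hg.ae_T] with u hu
    exact propext ⟨fun h => (hiff _ (T_snd hu)).mp h.2, fun h => ⟨hle1 _, (hiff _ (T_snd hu)).mpr h⟩⟩
  refine ⟨φ (1 / 2), hx, φ (1 / 2), hx, ?_⟩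
  rw [e1, e2, e3]
  have := deviation P0_lower P0_upper hsh hg
  rw [abs_sub_comm]
  exact this.trans (le_abs_self _)

/-! ### The density is neither TP2 nor RR2 -/

theorem exists_quad {g : ℝ × ℝ → ℝ≥0∞} (hg : f0 =ᵐ[volume] g) (a b c d : ℝ) (hab : a < b) (hcd : c < d) :
    ∃ x₁ ∈ Ioo a b, ∃ x₂ ∈ Ioo a b, ∃ y₁ ∈ Ioo c d, ∃ y₂ ∈ Ioo c d,
      f0 (x₁, x₂) = g (x₁, x₂) ∧ f0 (y₁, y₂) = g (y₁, y₂) ∧
      f0 (x₁, y₂) = g (x₁, y₂) ∧ f0 (y₁, x₂) = g (y₁, x₂) := by
  have q1 : Measure.QuasiMeasurePreserving (fun z : (ℝ × ℝ) × (ℝ × ℝ) => z.1) volume volume :=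
    Measure.quasiMeasurePreserving_fst
  have q2 : Measure.QuasiMeasurePreserving (fun z : (ℝ × ℝ) × (ℝ × ℝ) => z.2) volume volume :=
    Measure.quasiMeasurePreserving_snd
  have q3 : Measure.QuasiMeasurePreserving (fun z : (ℝ × ℝ) × (ℝ × ℝ) => (z.1.1, z.2.2))
      volume volume := by
    have hm : Measurable (fun z : (ℝ × ℝ) × (ℝ × ℝ) => (z.1.1, z.2.2)) :=
      (measurable_fst.comp measurable_fst).prodMk (measurable_snd.comp measurable_snd)
    refine ⟨hm, Measure.AbsolutelyContinuous.mk fun s hs h0 => ?_⟩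
    rw [Measure.map_apply hm hs]
    have hs0 : ∀ᵐ x : ℝ, volume (Prod.mk x ⁻¹' s) = 0 := by
      rw [Measure.volume_eq_prod] at h0
      exact (Measure.measure_prod_null hs).mp h0
    have hs1 : ∀ᵐ x : ℝ × ℝ, volume (Prod.mk x.1 ⁻¹' s) = 0 :=
      (Measure.quasiMeasurePreserving_fst (μ := (volume : Measure ℝ))
        (ν := (volume : Measure ℝ))).ae hs0
    rw [Measure.volume_eq_prod (ℝ × ℝ) (ℝ × ℝ), Measure.measure_prod_null (hm hs)]
    filter_upwards [hs1] with x hx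
    exact (Measure.quasiMeasurePreserving_snd (μ := (volume : Measure ℝ))
      (ν := (volume : Measure ℝ))).preimage_null hx
  have q4 : Measure.QuasiMeasurePreserving (fun z : (ℝ × ℝ) × (ℝ × ℝ) => (z.2.1, z.1.2))
      volume volume := by
    have h1 : Measure.QuasiMeasurePreserving (Prod.swap : (ℝ × ℝ) × (ℝ × ℝ) → (ℝ × ℝ) × (ℝ × ℝ))
        volume volume := Measure.measurePreserving_swap.quasiMeasurePreserving
    exact q3.comp h1
  have hae : ∀ᵐ z : (ℝ × ℝ) × (ℝ × ℝ) ∂volume,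
      f0 z.1 = g z.1 ∧ f0 z.2 = g z.2 ∧ f0 (z.1.1, z.2.2) = g (z.1.1, z.2.2) ∧
        f0 (z.2.1, z.1.2) = g (z.2.1, z.1.2) := by
    filter_upwards [q1.ae hg, q2.ae hg, q3.ae hg, q4.ae hg] with z h1 h2 h3 h4
    exact ⟨h1, h2, h3, h4⟩
  have hopen : IsOpen ((Ioo a b ×ˢ Ioo a b) ×ˢ (Ioo c d ×ˢ Ioo c d) : Set ((ℝ × ℝ) × (ℝ × ℝ))) :=
    (isOpen_Ioo.prod isOpen_Ioo).prod (isOpen_Ioo.prod isOpen_Ioo)
  have hne : ((Ioo a b ×ˢ Ioo a b) ×ˢ (Ioo c d ×ˢ Ioo c d) : Set ((ℝ × ℝ) × (ℝ × ℝ))).Nonempty :=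
    ((nonempty_Ioo.mpr hab).prod (nonempty_Ioo.mpr hab)).prod
      ((nonempty_Ioo.mpr hcd).prod (nonempty_Ioo.mpr hcd))
  have hpos := hopen.measure_pos volume hne
  obtain ⟨z, hz, hz'⟩ : ∃ z ∈ ((Ioo a b ×ˢ Ioo a b) ×ˢ (Ioo c d ×ˢ Ioo c d) : Set ((ℝ × ℝ) × (ℝ × ℝ))),
      f0 z.1 = g z.1 ∧ f0 z.2 = g z.2 ∧ f0 (z.1.1, z.2.2) = g (z.1.1, z.2.2) ∧
        f0 (z.2.1, z.1.2) = g (z.2.1, z.1.2) := by
    by_contra hcon
    push Not at hcon
    rw [ae_iff] at hae
    refine hpos.ne' (measure_mono_null ?_ hae)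
    intro z hz hh
    exact hcon z hz hh.1 hh.2.1 hh.2.2.1 hh.2.2.2
  exact ⟨z.1.1, hz.1.1, z.1.2, hz.1.2, z.2.1, hz.2.1, z.2.2, hz.2.2, hz'⟩

theorem f0_out {u : ℝ × ℝ} (hu : u ∉ T) : f0 u = 0 := by
  unfold f0
  rw [indicator_of_notMem hu, indicator_of_notMem (fun h => hu (A_subset h))]
  simp

theorem f0_T {u : ℝ × ℝ} (hu : u ∈ T) (hA : u ∉ A) : f0 u = κ := by
  unfold f0
  rw [indicator_of_mem hu, indicator_of_notMem hA]
  simp

theorem f0_A {u : ℝ × ℝ} (hA : u ∈ A) : f0 u = 2 * κ := by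
  unfold f0
  rw [indicator_of_mem (A_subset hA), indicator_of_mem hA]
  rw [one_add_one_eq_two, mul_comm]

theorem not_TP2_RR2 (g : ℝ × ℝ → ℝ≥0∞) (hg : Measurable g) (h : P0 = volume.withDensity g) :
    ¬ TP2 g ∧ ¬ RR2 g := by
  have hfin : ∫⁻ u, f0 u ≠ ∞ := by
    have := good_P0.prob
    have h1 : P0 univ = 1 := measure_univ
    unfold P0 at h1
    rw [withDensity_apply _ MeasurableSet.univ, Measure.restrict_univ] at h1
    rw [h1]; exact ENNReal.one_ne_top
  have hae : f0 =ᵐ[volume] g := by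
    rw [← withDensity_eq_iff measurable_f0.aemeasurable hg.aemeasurable hfin]
    exact h
  constructor
  · intro htp
    obtain ⟨x₁, hx₁, x₂, hx₂, y₁, hy₁, y₂, hy₂, e1, e2, e3, e4⟩ :=
      exists_quad hae (1 / 10) (2 / 10) (6 / 10) (7 / 10) (by norm_num) (by norm_num)
    have := htp x₁ x₂ y₁ y₂ (by linarith [hx₁.2, hy₁.1]) (by linarith [hx₂.2, hy₂.1])
    rw [← e1, ← e2, ← e3, ← e4] at this
    have hout : f0 (y₁, y₂) = 0 := f0_out (fun hT => by
      have h3 := hT.2.2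
      simp only at h3
      linarith [hy₁.1, hy₂.1])
    have h3 : f0 (x₁, y₂) = κ := f0_T ⟨by simp only; linarith [hx₁.1], by simp only; linarith [hy₂.1],
      by simp only; linarith [hx₁.2, hy₂.2]⟩ (fun hA => by
        have := hA.2.2
        simp only at this
        linarith [hy₂.1])
    have h4 : f0 (y₁, x₂) = κ := f0_T ⟨by simp only; linarith [hy₁.1], by simp only; linarith [hx₂.1],
      by simp only; linarith [hy₁.2, hx₂.2]⟩ (fun hA => by
        have := hA.1.2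
        simp only at this
        linarith [hy₁.1])
    rw [hout, h3, h4, mul_zero] at this
    exact (ENNReal.mul_pos κ_ne_zero κ_ne_zero).ne' (le_antisymm this bot_le)
  · intro hrr
    obtain ⟨x₁, hx₁, x₂, hx₂, y₁, hy₁, y₂, hy₂, e1, e2, e3, e4⟩ :=
      exists_quad hae (1 / 8) (2 / 8) (2 / 8) (4 / 8) (by norm_num) (by norm_num)
    have := hrr x₁ x₂ y₁ y₂ (by linarith [hx₁.2, hy₁.1]) (by linarith [hx₂.2, hy₂.1])
    rw [← e1, ← e2, ← e3, ← e4] at this
    have h1 : f0 (x₁, x₂) = κ := f0_T ⟨by simp only; linarith [hx₁.1], by simp only; linarith [hx₂.1],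
      by simp only; linarith [hx₁.2, hx₂.2]⟩ (fun hA => by
        have := hA.1.1
        simp only at this
        linarith [hx₁.2])
    have h2 : f0 (y₁, y₂) = 2 * κ := f0_A ⟨⟨by simp only; linarith [hy₁.1], by simp only; linarith [hy₁.2]⟩,
      ⟨by simp only; linarith [hy₂.1], by simp only; linarith [hy₂.2]⟩⟩
    have h3 : f0 (x₁, y₂) = κ := f0_T ⟨by simp only; linarith [hx₁.1], by simp only; linarith [hy₂.1],
      by simp only; linarith [hx₁.2, hy₂.2]⟩ (fun hA => by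
        have := hA.1.1
        simp only at this
        linarith [hx₁.2])
    have h4 : f0 (y₁, x₂) = κ := f0_T ⟨by simp only; linarith [hy₁.1], by simp only; linarith [hx₂.1],
      by simp only; linarith [hy₁.2, hx₂.2]⟩ (fun hA => by
        have := hA.2.1
        simp only at this
        linarith [hx₂.2])
    rw [h1, h2, h3, h4] at this
    have h5 : κ * κ ≠ 0 := (ENNReal.mul_pos κ_ne_zero κ_ne_zero).ne'
    have h6 : κ * κ ≠ ∞ := ENNReal.mul_ne_top κ_ne_top κ_ne_top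
    have h7 : κ * κ + κ * κ ≤ κ * κ := by
      calc κ * κ + κ * κ = κ * (2 * κ) := by ring
        _ ≤ κ * κ := this
    have h8 : κ * κ < κ * κ + κ * κ := ENNReal.lt_add_right h6 h5
    exact absurd h7 (not_le.mpr h8)

/-! ### Main theorem -/

theorem integrable_P0 {g : ℝ × ℝ → ℝ} (hg : Continuous g) (h : ∀ u ∈ T, |g u| ≤ 1) :
    Integrable g P0 := by
  have := good_P0.prob
  refine Integrable.mono' (integrable_const 1) hg.aestronglyMeasurable ?_
  filter_upwards [good_P0.ae_T] with u hu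
  exact h u hu

theorem integral_pos_P0 {g : ℝ × ℝ → ℝ} (hg : Continuous g) (h : ∀ u ∈ T, |g u| ≤ 1)
    (hpos : ∀ u ∈ T, 0 < g u) : 0 < ∫ u, g u ∂P0 := by
  have hp := good_P0.prob
  rw [integral_pos_iff_support_of_nonneg_ae ?_ (integrable_P0 hg h)]
  · refine lt_of_lt_of_le (good_P0.pos T isOpen_T T_nonempty subset_rfl) (measure_mono ?_)
    intro u hu
    exact (hpos u hu).ne'
  · filter_upwards [good_P0.ae_T] with u hu
    exact (hpos u hu).le

/-- **Disproof of Q1**: there is a random vector on `ℝ₊²` whose law has a density, which is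
neither `TP₂` nor `RR₂`, and for which the iterated bivariate Lorenz curves exist and stay at
distance at least `1/36` from independence for every `n`. -/
theorem result :
    ∃ P : Measure (ℝ × ℝ), IsProbabilityMeasure P ∧ P ≪ volume ∧
      P {u | ¬ (0 ≤ u.1 ∧ 0 ≤ u.2)} = 0 ∧
      (Integrable (fun u => u.1) P ∧ 0 < ∫ u, u.1 ∂P) ∧
      (Integrable (fun u => u.2) P ∧ 0 < ∫ u, u.2 ∂P) ∧
      (Integrable (fun u => u.1 * u.2) P ∧ 0 < mu P) ∧
      (∀ g : ℝ × ℝ → ℝ≥0∞, Measurable g → P = volume.withDensity g → ¬ TP2 g ∧ ¬ RR2 g) ∧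
      (∃ M, IsLorenzIteration P M) ∧
      ∀ M, IsLorenzIteration P M → ∀ n, ∃ x₁ ∈ Icc (0 : ℝ) 1, ∃ x₂ ∈ Icc (0 : ℝ) 1,
        1 / 36 ≤ |df (M n) x₁ x₂ - df (M n) x₁ 1 * df (M n) 1 x₂| := by
  refine ⟨P0, good_P0.prob, good_P0.ac, ?_, ⟨?_, ?_⟩, ⟨?_, ?_⟩, ⟨?_, ?_⟩, not_TP2_RR2,
    ⟨M0, M0_iteration⟩, ?_⟩
  · refine measure_mono_null ?_ good_P0.carried
    intro u hu hT
    exact hu ⟨hT.1.le, hT.2.1.le⟩
  · exact integrable_P0 continuous_fst fun u hu => by
      rw [abs_of_pos (T_fst hu).1]; exact (T_fst hu).2.le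
  · exact integral_pos_P0 continuous_fst (fun u hu => by
      rw [abs_of_pos (T_fst hu).1]; exact (T_fst hu).2.le) fun u hu => (T_fst hu).1
  · exact integrable_P0 continuous_snd fun u hu => by
      rw [abs_of_pos (T_snd hu).1]; exact (T_snd hu).2.le
  · exact integral_pos_P0 continuous_snd (fun u hu => by
      rw [abs_of_pos (T_snd hu).1]; exact (T_snd hu).2.le) fun u hu => (T_snd hu).1
  · exact integrable_P0 (continuous_fst.mul continuous_snd) fun u hu => by
      rw [abs_of_pos (mul_pos (T_fst hu).1 (T_snd hu).1)]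
      exact mul_le_one₀ (T_fst hu).2.le (T_snd hu).1.le (T_snd hu).2.le
  · exact integral_pos_P0 (continuous_fst.mul continuous_snd) (fun u hu => by
      rw [abs_of_pos (mul_pos (T_fst hu).1 (T_snd hu).1)]
      exact mul_le_one₀ (T_fst hu).2.le (T_snd hu).1.le (T_snd hu).2.le)
      fun u hu => mul_pos (T_fst hu).1 (T_snd hu).1
  · intro M hM n
    rw [iteration_unique hM M0_iteration]
    exact M0_deviation n


end Pool.Agent.Results.MP_357d86_pr.TriangleDependence
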